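import Pool.Agent.H185R2.Reg.Pot
import Pool.Agent.H239R2.Cover.Covering
import Pool.Agent.H126R2.CDC.PackK

set_option autoImplicit false

/-!
The covering theorem in the dual of an integer configuration, with a fractional packing.
-/

namespace Pool.Agent.H185R2.Reg

open Finset Matrix
open Pool.Agent.Helper879.ECD (sp)
open Pool.Agent.H239R2.Cover (rv covering)

set_option linter.unusedSectionVars false

/-- From a spanning indexed subfamily over `ℚ` one can select a basis. -/
theorem exists_basis_of_spanF {ι F : Type} [Fintype ι] [DecidableEq ι] [DecidableEq F]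
    (x : F → ι → ℤ) (I : Finset F)
    (hI : Submodule.span ℚ ((fun e => (fun i => (x e i : ℚ))) '' (I : Set F)) = ⊤) :
    ∃ c : ι → F, Function.Injective c ∧ (∀ i, c i ∈ I) ∧
      (Matrix.of (fun i => x (c i))).det ≠ 0 := by
  classical
  obtain ⟨b, hbs, hbspan, hbind⟩ :=
    exists_linearIndependent ℚ ((fun e => (fun i => (x e i : ℚ))) '' (I : Set F))
  rw [hI] at hbspan
  have hbfin : b.Finite := (Set.Finite.image _ (Finset.finite_toSet I)).subset hbs
  have : Fintype b := hbfin.fintype
  have hbasis := Module.Basis.mk hbind (by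
    rw [Subtype.range_coe_subtype]
    simp only [Set.ofPred_mem_eq]
    exact hbspan.ge)
  have hcard : Fintype.card b = Fintype.card ι := by
    have h1 := Module.finrank_eq_card_basis hbasis
    rw [Module.finrank_fintype_fun_eq_card] at h1
    exact h1.symm
  let φ : ι ≃ b := (Fintype.equivOfCardEq hcard).symm
  have hpre : ∀ y : b, ∃ e ∈ I, (fun i => (x e i : ℚ)) = y := by
    intro y
    obtain ⟨e, he, hey⟩ := hbs y.2
    exact ⟨e, he, hey⟩
  choose g hgI hg using hpre
  refine ⟨fun i => g (φ i), ?_, fun i => hgI _, ?_⟩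
  · intro i j hij
    apply φ.injective
    apply Subtype.ext
    rw [← hg (φ i), ← hg (φ j)]
    simp only at hij
    rw [hij]
  · intro hdet
    have hlin : LinearIndependent ℚ (fun i => (fun k => (x (g (φ i)) k : ℚ))) := by
      have h1 : (fun i => (fun k => (x (g (φ i)) k : ℚ))) = (fun y : b => (y : ι → ℚ)) ∘ φ := by
        funext i
        simp only [Function.comp]
        exact hg (φ i)
      rw [h1]
      exact hbind.comp φ φ.injective
    have h2 : LinearIndependent ℚ (((Matrix.of (fun i => x (g (φ i)))).map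
        (Int.cast : ℤ → ℚ)).row) := hlin
    rw [Matrix.linearIndependent_rows_iff_isUnit, Matrix.isUnit_iff_isUnit_det,
      isUnit_iff_ne_zero] at h2
    apply h2
    have h3 : ((Matrix.of (fun i => x (g (φ i)))).map (Int.cast : ℤ → ℚ)).det
        = (((Matrix.of (fun i => x (g (φ i)))).det : ℤ) : ℚ) :=
      (Int.cast_det (R := ℚ) (Matrix.of (fun i => x (g (φ i))))).symm
    rw [h3, hdet]
    simp

variable {V E : Type} [Fintype V] [DecidableEq V] [Fintype E] [DecidableEq E]

/-- The vectors of the configuration over the rationals. -/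
def gq (g : E → V → ℤ) (e : E) : V → ℚ := fun v => (g e v : ℚ)

/-- **Covering in the dual configuration.** If `K |A| ≤ K rk(A) + r |A|` for every `A`, then
every real function on `E` is, up to `r/(2K)`, the sum of an integral function and of a
function `e ↦ φ ⬝ g e`. -/
theorem dual_covering (g : E → V → ℤ) (K r : ℕ) (hK : 0 < K)
    (hsp : ∀ A : Finset E, K * A.card ≤
      K * Module.finrank ℚ (sp ℚ (gq g) A) + r * A.card) (T : E → ℝ) :
    ∃ (φ : V → ℝ) (y : E → ℤ), ∀ e,
      |T e - ∑ v, φ v * (g e v : ℝ) - y e| ≤ r / (2 * K) := by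
  classical
  set N : Submodule ℤ (E → ℤ) := LinearMap.ker (bd g) with hN
  obtain ⟨n, zb⟩ := Submodule.basisOfPid (Pi.basisFun ℤ E) N
  let x : E → Fin n → ℤ := fun e i => (zb i : E → ℤ) e
  let xq : E → Fin n → ℚ := fun e i => (x e i : ℚ)
  have hmR : (0:ℝ) < K := by exact_mod_cast hK
  -- rational independence of the basis relations
  have hzq : LinearIndependent ℚ (fun i : Fin n => (fun e => (x e i : ℚ))) := by
    rw [← LinearIndependent.iff_fractionRing ℤ ℚ]
    have h1 : LinearIndependent ℤ (fun i : Fin n => (zb i : E → ℤ)) :=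
      zb.linearIndependent.map' N.subtype (Submodule.ker_subtype N)
    have h2 := h1.map' ((Algebra.linearMap ℤ ℚ).compLeft E) (by
      rw [LinearMap.ker_eq_bot]
      intro u w huw
      ext e
      have := congrFun huw e
      simpa using this)
    exact h2
  have hdual : ∀ f : Module.Dual ℚ (Fin n → ℚ), (∀ e, f (xq e) = 0) → f = 0 := by
    intro f hf
    have hfx : ∀ w : Fin n → ℚ, f w = ∑ i, w i * f (Pi.single i 1) := by
      intro w
      have hw : w = ∑ i, w i • Pi.single i (1:ℚ) := by
        ext k
        simp [Finset.sum_apply, Pi.single_apply]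
      conv_lhs => rw [hw]
      rw [map_sum]
      exact Finset.sum_congr rfl fun i _ => by rw [map_smul, smul_eq_mul]
    have hc : ∀ i, f (Pi.single i 1) = 0 := by
      have := Fintype.linearIndependent_iff.mp hzq (fun i => f (Pi.single i 1)) (by
        ext e
        have h1 := hf e
        rw [hfx] at h1
        simp only [Finset.sum_apply, Pi.smul_apply, smul_eq_mul, Pi.zero_apply]
        rw [← h1]
        exact Finset.sum_congr rfl fun i _ => by simp only [xq]; ring)
      exact this
    apply LinearMap.ext
    intro w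
    rw [hfx, LinearMap.zero_apply]
    exact Finset.sum_eq_zero fun i _ => by rw [hc i, mul_zero]
  have htop : sp ℚ xq (univ : Finset E) = ⊤ := by
    by_contra hne
    obtain ⟨f, hf0, hf⟩ := Submodule.exists_le_ker_of_lt_top _ (lt_of_le_of_ne le_top hne)
    apply hf0
    apply hdual
    intro e
    exact hf (Submodule.subset_span ⟨e, by simp, rfl⟩)
  -- the rank inequality
  have hrank : ∀ S : Submodule ℚ (Fin n → ℚ),
      n + Module.finrank ℚ (sp ℚ (gq g) (univ.filter (fun e => ¬ xq e ∈ S)))
        ≤ Module.finrank ℚ S + (univ.filter (fun e => ¬ xq e ∈ S)).card := by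
    intro S
    set A : Finset E := univ.filter (fun e => ¬ xq e ∈ S) with hA
    let D : (A → ℚ) →ₗ[ℚ] (V → ℚ) := Fintype.linearCombination ℚ (fun e : A => gq g e)
    let Ψ : S.dualAnnihilator →ₗ[ℚ] (A → ℚ) :=
      { toFun := fun f => fun e => f.1 (xq e)
        map_add' := by intro f g; ext e; simp
        map_smul' := by intro c f; ext e; simp }
    have hΨ0 : ∀ (f : S.dualAnnihilator) (e : E), e ∉ A → f.1 (xq e) = 0 := by
      intro f e he
      rw [hA, Finset.mem_filter] at he
      push Not at he
      have h1 : xq e ∈ S := he (Finset.mem_univ _)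
      exact (Submodule.mem_dualAnnihilator f.1).mp f.2 _ h1
    have hker : ∀ f, Ψ f ∈ LinearMap.ker D := by
      intro f
      rw [LinearMap.mem_ker]
      ext v
      simp only [D, Fintype.linearCombination_apply, Finset.sum_apply, Pi.smul_apply, smul_eq_mul,
        Pi.zero_apply]
      have h1 : ∑ e : A, (Ψ f) e * gq g e v = ∑ e ∈ A, f.1 (xq e) * gq g e v :=
        Finset.sum_coe_sort A (fun e => f.1 (xq e) * gq g e v)
      rw [h1, Finset.sum_subset (Finset.subset_univ A)
        (fun e _ he => by rw [hΨ0 f e he, zero_mul])]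
      have h2 : ∑ e, f.1 (xq e) * gq g e v = f.1 (∑ e, gq g e v • xq e) := by
        rw [map_sum]
        exact Finset.sum_congr rfl fun e _ => by rw [map_smul, smul_eq_mul]; ring
      rw [h2]
      have h3 : ∑ e, gq g e v • xq e = 0 := by
        ext i
        have h4 : bd g (zb i : E → ℤ) v = 0 := by
          have : bd g (zb i : E → ℤ) = 0 := (zb i).2
          rw [this]; rfl
        rw [bd_apply] at h4
        have h5 := congrArg (Int.cast : ℤ → ℚ) h4
        push_cast at h5
        simp only [Finset.sum_apply, Pi.smul_apply, smul_eq_mul, Pi.zero_apply]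
        rw [← h5]
        refine Finset.sum_congr rfl fun e _ => ?_
        simp only [gq, xq, x]
        ring
      rw [h3, map_zero]
    let Ψ' : S.dualAnnihilator →ₗ[ℚ] LinearMap.ker D := Ψ.codRestrict _ hker
    have hinj : Function.Injective Ψ' := by
      rw [← LinearMap.ker_eq_bot, LinearMap.ker_eq_bot']
      intro f hf
      apply Subtype.ext
      apply hdual
      intro e
      by_cases he : e ∈ A
      · have h1 : Ψ f = 0 := congrArg Subtype.val hf
        exact congrFun h1 ⟨e, he⟩
      · exact hΨ0 f e he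
    have h1 := LinearMap.finrank_le_finrank_of_injective hinj
    have h2 := Subspace.finrank_add_finrank_dualAnnihilator_eq S
    rw [Module.finrank_fintype_fun_eq_card, Fintype.card_fin] at h2
    have h3 := LinearMap.finrank_range_add_finrank_ker D
    rw [Module.finrank_fintype_fun_eq_card, Fintype.card_coe] at h3
    have h4 : LinearMap.range D = sp ℚ (gq g) A := by
      simp only [D]
      rw [Fintype.range_linearCombination]
      unfold sp
      congr 1
      rw [Set.image_eq_range]
      rfl
    rw [h4] at h3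
    omega
  -- packing in `r` copies
  let x2 : E × Fin r → Fin n → ℚ := fun p => xq p.1
  have hsp2 : ∀ R : Finset (E × Fin r), sp ℚ x2 R = sp ℚ xq (R.image Prod.fst) := by
    intro R
    unfold sp
    congr 1
    ext w
    simp only [Set.mem_image, Finset.mem_coe, Finset.mem_image, x2]
    constructor
    · rintro ⟨p, hp, rfl⟩
      exact ⟨p.1, ⟨p, hp, rfl⟩, rfl⟩
    · rintro ⟨e, ⟨p, hp, rfl⟩, rfl⟩
      exact ⟨p, hp, rfl⟩
  have htop2 : sp ℚ x2 (univ : Finset (E × Fin r)) = ⊤ := by
    rcases Nat.eq_zero_or_pos r with hr | hr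
    · have h1 := hrank ⊥
      have h2 := hsp (univ.filter (fun e => ¬ xq e ∈ (⊥ : Submodule ℚ (Fin n → ℚ))))
      rw [hr, zero_mul, add_zero] at h2
      have h3 := Nat.le_of_mul_le_mul_left h2 hK
      rw [finrank_bot] at h1
      have h4 : n = 0 := by omega
      have : Subsingleton (Fin n → ℚ) := by
        subst h4
        infer_instance
      exact Subsingleton.elim _ _
    · rw [hsp2]
      have : (univ : Finset (E × Fin r)).image Prod.fst = univ := by
        ext e
        simp only [Finset.mem_image, Finset.mem_univ, true_and, iff_true]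
        exact ⟨(e, ⟨0, hr⟩), rfl⟩
      rw [this]
      exact htop
  obtain ⟨I, hd, hI⟩ := Pool.Agent.H126R2.CDC.packK (F := ℚ) (K := Fin K) (x := x2) (by
    intro R
    have hle : Module.finrank ℚ (sp ℚ x2 (univ : Finset (E × Fin r))) ≤ n := by
      have := Submodule.finrank_le (sp ℚ x2 (univ : Finset (E × Fin r)))
      rwa [Module.finrank_fintype_fun_eq_card, Fintype.card_fin] at this
    rw [Fintype.card_fin]
    set S := sp ℚ x2 R with hS
    have h1 := hrank S
    have h2 := hsp (univ.filter (fun e => ¬ xq e ∈ S))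
    have h3 := Nat.mul_le_mul_left K h1
    rw [mul_add, mul_add] at h3
    have h5 : (univ.filter (fun p : E × Fin r => ¬ x2 p ∈ S)).card
        = r * (univ.filter (fun e => ¬ xq e ∈ S)).card := by
      have : (univ.filter (fun p : E × Fin r => ¬ x2 p ∈ S))
          = (univ.filter (fun e => ¬ xq e ∈ S)) ×ˢ (univ : Finset (Fin r)) := by
        ext p
        simp [x2]
      rw [this, Finset.card_product, Finset.card_univ, Fintype.card_fin, mul_comm]
    have h6 := Nat.mul_le_mul_left K hle
    have h4 : K * n ≤ K * Module.finrank ℚ S +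
        r * (univ.filter (fun e => ¬ xq e ∈ S)).card := by omega
    rw [← h5] at h4
    exact h6.trans (by convert h4))
  have hbas : ∀ j, ∃ c : Fin n → E × Fin r, Function.Injective c ∧ (∀ i, c i ∈ I j) ∧
      (Matrix.of (fun i => x (c i).1)).det ≠ 0 := by
    intro j
    apply exists_basis_of_spanF (fun p : E × Fin r => x p.1)
    have := hI j
    rw [htop2] at this
    exact this
  choose c hcinj hcI hcdet using hbas
  let t : Fin n → ℝ := fun i => ∑ e, T e * (x e i : ℝ)
  obtain ⟨a, τ, hτ, hsum⟩ := covering (fun _ : Fin K => 1 / (K : ℝ)) (fun _ => by positivity)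
    (by simp; field_simp) (fun j i => x (c j i).1) hcdet t
  let cc : Fin K × Fin n → E × Fin r := fun p => c p.1 p.2
  have hcc : Function.Injective cc := by
    rintro ⟨j, i⟩ ⟨j', i'⟩ h
    simp only [cc] at h
    have hjj : j = j' := by
      by_contra hne
      exact Finset.disjoint_left.mp (hd j j' hne) (hcI j i) (h ▸ hcI j' i')
    subst hjj
    rw [hcinj j h]
  let g2 : E × Fin r → ℝ := Function.extend cc (fun p => τ p.1 p.2) 0
  have hgc : ∀ p, g2 (cc p) = τ p.1 p.2 := fun p => hcc.extend_apply _ _ p
  have hgn : ∀ e, (¬ ∃ p, cc p = e) → g2 e = 0 := fun e he => by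
    simp only [g2]; rw [Function.extend_apply' _ _ _ he]; rfl
  have hgb2 : ∀ e, |g2 e| ≤ 1 / (2 * K) := by
    intro e
    by_cases he : ∃ p, cc p = e
    · obtain ⟨p, rfl⟩ := he
      rw [hgc]
      refine (hτ p.1 p.2).trans (le_of_eq ?_)
      field_simp
    · rw [hgn e he]; simp
  let gg : E → ℝ := fun e => ∑ i, g2 (e, i)
  have hgb : ∀ e, |gg e| ≤ r / (2 * K) := by
    intro e
    refine (Finset.abs_sum_le_sum_abs _ _).trans ?_
    refine (Finset.sum_le_sum fun i _ => hgb2 (e, i)).trans ?_
    rw [Finset.sum_const, Finset.card_univ, Fintype.card_fin, nsmul_eq_mul]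
    apply le_of_eq
    field_simp
  have hgs : ∑ e, gg e • rv (x e) = t - rv a := by
    rw [hsum, ← Finset.sum_product', Finset.univ_product_univ]
    have h1 : ∑ e, gg e • rv (x e) = ∑ p : E × Fin r, g2 p • rv (x p.1) := by
      rw [Fintype.sum_prod_type]
      refine Finset.sum_congr rfl fun e _ => ?_
      simp only [gg]
      rw [Finset.sum_smul]
    rw [h1, ← Finset.sum_subset (Finset.subset_univ (univ.image cc)),
      Finset.sum_image (fun p _ q _ h => hcc h)]
    · exact Finset.sum_congr rfl fun p _ => by rw [hgc]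
    · intro e _ he
      rw [hgn e (by
        rintro ⟨p, hp⟩
        exact he (Finset.mem_image.mpr ⟨p, Finset.mem_univ _, hp⟩)), zero_smul]
  -- the integrality condition
  have hcyc : ∀ i, ∑ e, (T e - gg e) * ((x e i : ℤ) : ℝ) = a i := by
    intro i
    have h1 := congrFun hgs i
    simp only [Finset.sum_apply, Pi.smul_apply, smul_eq_mul, Pi.sub_apply, rv, t] at h1
    have h2 : ∑ e, (T e - gg e) * ((x e i : ℤ) : ℝ)
        = ∑ e, T e * (x e i : ℝ) - ∑ e, gg e * (x e i : ℝ) := by
      rw [← Finset.sum_sub_distrib]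
      exact Finset.sum_congr rfl fun e _ => by ring
    rw [h2, h1]
    ring
  obtain ⟨φ, y, hφ⟩ := exists_pot g (fun e => T e - gg e) (by
    intro z hz
    have hzN : z ∈ N := hz
    have hrep : ∀ e, z e = ∑ i, zb.repr ⟨z, hzN⟩ i * x e i := by
      intro e
      have h1 := zb.sum_repr ⟨z, hzN⟩
      have h2 := congrArg (fun u : N => (u : E → ℤ) e) h1
      simp only [Submodule.coe_sum, Submodule.coe_smul, Finset.sum_apply, Pi.smul_apply,
        smul_eq_mul] at h2
      exact h2.symm
    refine ⟨∑ i, zb.repr ⟨z, hzN⟩ i * a i, ?_⟩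
    push_cast
    have h3 : ∀ e, (T e - gg e) * (z e : ℝ)
        = ∑ i, (zb.repr ⟨z, hzN⟩ i : ℝ) * ((T e - gg e) * (x e i : ℝ)) := by
      intro e
      rw [hrep e]
      push_cast
      rw [Finset.mul_sum]
      exact Finset.sum_congr rfl fun i _ => by ring
    rw [Finset.sum_congr rfl (fun e _ => h3 e), Finset.sum_comm]
    refine Finset.sum_congr rfl fun i _ => ?_
    rw [← Finset.mul_sum, hcyc i])
  refine ⟨φ, y, fun e => ?_⟩
  have h1 := hφ e
  have h2 : T e - ∑ v, φ v * (g e v : ℝ) - y e = gg e := by linarith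
  rw [h2]
  exact hgb e

end Pool.Agent.H185R2.Reg
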