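import Mathlib

set_option autoImplicit false

/-!
A real function on `E` whose product with every integral relation between the vectors `g e` is
an integer is, modulo integers, of the form `e ↦ φ ⬝ g e`.
-/

namespace Pool.Agent.H185R2.Reg

open Finset

set_option linter.unusedSectionVars false

variable {V E : Type} [Fintype V] [DecidableEq V] [Fintype E] [DecidableEq E]

/-- The linear combination map of a configuration of integer vectors. -/
def bd (g : E → V → ℤ) : (E → ℤ) →ₗ[ℤ] (V → ℤ) where
  toFun z := fun v => ∑ e, z e * g e v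
  map_add' z z' := by
    ext v
    simp only [Pi.add_apply, add_mul, Finset.sum_add_distrib]
  map_smul' c z := by
    ext v
    simp only [Pi.smul_apply, smul_eq_mul, RingHom.id_apply, Finset.mul_sum, mul_assoc]

theorem bd_apply (g : E → V → ℤ) (z : E → ℤ) (v : V) : bd g z v = ∑ e, z e * g e v := rfl

theorem bd_single (g : E → V → ℤ) (e : E) : bd g (Pi.single e 1) = g e := by
  ext v
  rw [bd_apply, Finset.sum_eq_single e]
  · simp
  · intro b _ hb
    rw [Pi.single_eq_of_ne hb, zero_mul]
  · intro h; exact absurd (Finset.mem_univ _) h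

theorem exists_pot (g : E → V → ℤ) (h : E → ℝ)
    (hh : ∀ z : E → ℤ, bd g z = 0 → ∃ k : ℤ, ∑ e, h e * (z e : ℝ) = k) :
    ∃ (φ : V → ℝ) (y : E → ℤ), ∀ e, h e = ∑ v, φ v * (g e v : ℝ) + y e := by
  classical
  let H : (E → ℤ) →ₗ[ℤ] AddCircle (1:ℝ) :=
    { toFun := fun z => ((∑ e, h e * (z e : ℝ) : ℝ) : AddCircle (1:ℝ))
      map_add' := by
        intro z z'
        rw [← AddCircle.coe_add]
        congr 1
        rw [← Finset.sum_add_distrib]
        refine Finset.sum_congr rfl fun e _ => ?_
        simp only [Pi.add_apply, Int.cast_add]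
        ring
      map_smul' := by
        intro c z
        simp only [RingHom.id_apply]
        rw [← AddCircle.coe_zsmul]
        congr 1
        rw [Finset.smul_sum]
        refine Finset.sum_congr rfl fun e _ => ?_
        have h1 : (c • z) e = c * z e := rfl
        rw [h1, Int.cast_mul, zsmul_eq_mul]
        ring }
  have hker : LinearMap.ker (bd g) ≤ LinearMap.ker H := by
    intro z hz
    rw [LinearMap.mem_ker] at hz ⊢
    obtain ⟨k, hk⟩ := hh z hz
    change ((∑ e, h e * (z e : ℝ) : ℝ) : AddCircle (1:ℝ)) = 0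
    rw [hk, AddCircle.coe_eq_zero_iff]
    exact ⟨k, by simp⟩
  let gg : LinearMap.range (bd g) →ₗ[ℤ] AddCircle (1:ℝ) :=
    (Submodule.liftQ _ H hker) ∘ₗ (bd g).quotKerEquivRange.symm.toLinearMap
  obtain ⟨G, hG⟩ := (Module.Baer.of_divisible (A := AddCircle (1:ℝ))).extension_property
    (LinearMap.range (bd g)).subtype (Submodule.subtype_injective _) gg
  have hGH : ∀ z, G (bd g z) = H z := by
    intro z
    have h1 : G ((LinearMap.range (bd g)).subtype ⟨bd g z, LinearMap.mem_range_self _ z⟩)
        = gg ⟨bd g z, LinearMap.mem_range_self _ z⟩ := by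
      rw [← hG]; rfl
    rw [show (LinearMap.range (bd g)).subtype ⟨bd g z, LinearMap.mem_range_self _ z⟩
      = bd g z from rfl] at h1
    rw [h1]
    have h2 : (bd g).quotKerEquivRange.symm ⟨bd g z, LinearMap.mem_range_self _ z⟩
        = Submodule.Quotient.mk z := by
      rw [LinearEquiv.symm_apply_eq]
      rfl
    change (Submodule.liftQ _ H hker) ((bd g).quotKerEquivRange.symm _) = H z
    rw [h2, Submodule.liftQ_apply]
  have hsurj : ∀ v : V, ∃ r : ℝ, ((r : ℝ) : AddCircle (1:ℝ)) = G (Pi.single v 1) := by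
    intro v
    exact QuotientAddGroup.mk_surjective (G (Pi.single v 1))
  choose φ hφ using hsurj
  have hint : ∀ e, ∃ k : ℤ, h e = ∑ v, φ v * (g e v : ℝ) + k := by
    intro e
    have h1 := hGH (Pi.single e 1)
    have h0 : g e = ∑ v, g e v • (Pi.single v (1:ℤ) : V → ℤ) := by
      ext w
      simp [Finset.sum_apply, Pi.single_apply]
    rw [bd_single, h0, map_sum] at h1
    have h5 : ∑ v, G (g e v • (Pi.single v (1:ℤ) : V → ℤ))
        = ((∑ v, φ v * (g e v : ℝ) : ℝ) : AddCircle (1:ℝ)) := by
      have h6 : ((∑ v, φ v * (g e v : ℝ) : ℝ) : AddCircle (1:ℝ))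
          = ∑ v, ((φ v * (g e v : ℝ) : ℝ) : AddCircle (1:ℝ)) :=
        map_sum (QuotientAddGroup.mk' (AddSubgroup.zmultiples (1:ℝ))) _ _
      rw [h6]
      refine Finset.sum_congr rfl fun v _ => ?_
      rw [map_smul, ← hφ, ← AddCircle.coe_zsmul, zsmul_eq_mul, mul_comm]
    have h2 : H (Pi.single e 1) = ((h e : ℝ) : AddCircle (1:ℝ)) := by
      change ((∑ e', h e' * ((Pi.single e 1 : E → ℤ) e' : ℝ) : ℝ) : AddCircle (1:ℝ)) = _
      congr 1
      rw [Finset.sum_eq_single e]
      · simp
      · intro b _ hb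
        rw [Pi.single_eq_of_ne hb]; simp
      · intro h'; exact absurd (Finset.mem_univ _) h'
    rw [h2, h5] at h1
    have h3 : ((h e - ∑ v, φ v * (g e v : ℝ) : ℝ) : AddCircle (1:ℝ)) = 0 := by
      rw [AddCircle.coe_sub, ← h1, sub_self]
    rw [AddCircle.coe_eq_zero_iff] at h3
    obtain ⟨k, hk⟩ := h3
    refine ⟨k, ?_⟩
    rw [zsmul_eq_mul, mul_one] at hk
    linarith
  choose y hy using hint
  exact ⟨φ, y, hy⟩

end Pool.Agent.H185R2.Reg
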