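import Mathlib
import Pool.Agent.H185R2.Reg.Pot
import Pool.Agent.H239R2.Cover.Minors

set_option autoImplicit false

/-!
Unimodular configurations: saturation of the sublattices spanned by subfamilies, and rounding
of real potentials to integral ones.
-/

namespace Pool.Agent.H185R2.Reg

open Finset Matrix
open Pool.Agent.H239R2.Cover (rv Unimod rv_injective unimod_of_minors)

set_option linter.unusedSectionVars false

variable {V E : Type} [Fintype V] [DecidableEq V] [Fintype E] [DecidableEq E]

/-- A vector of the real span of a subfamily which is integral is an integral combination of an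
independent part of the subfamily. -/
theorem exists_int_comb (g : E → V → ℤ) (hU : Unimod g) (X : Set E) (w : V → ℤ)
    (hw : rv w ∈ Submodule.span ℝ ((fun e => rv (g e)) '' X)) :
    ∃ (B : Finset E) (s : E → ℤ), (B : Set E) ⊆ X ∧ w = ∑ e ∈ B, s e • g e := by
  classical
  obtain ⟨b, hbX, -, hspan, hind⟩ := exists_linearIndepOn_extension
    (K := ℝ) (v := fun e => rv (g e)) (s := (∅ : Set E)) (t := X)
    (linearIndepOn_empty ℝ _) (Set.empty_subset X)
  have hw' : rv w ∈ Submodule.span ℝ ((fun e => rv (g e)) '' b) :=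
    (Submodule.span_le.mpr hspan) hw
  set B : Finset E := b.toFinite.toFinset with hB
  have hBb : (B : Set E) = b := Set.Finite.coe_toFinset _
  rw [← hBb] at hw' hind
  rw [Submodule.mem_span_image_finset_iff_exists_fun] at hw'
  obtain ⟨c0, hc0⟩ := hw'
  let c : E → ℝ := fun e => if h : e ∈ B then c0 ⟨e, h⟩ else 0
  have hc : ∑ e ∈ B, c e • rv (g e) = rv w := by
    rw [← hc0, ← Finset.sum_coe_sort B]
    refine Finset.sum_congr rfl fun e _ => ?_
    simp only [c, dif_pos e.2]
  have h1 := hU B hind c ⟨w, hc⟩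
  have h2 : ∀ e, ∃ z : ℤ, e ∈ B → c e = z := by
    intro e
    by_cases he : e ∈ B
    · obtain ⟨z, hz⟩ := h1 e he
      exact ⟨z, fun _ => hz⟩
    · exact ⟨0, fun h => absurd h he⟩
  choose s hs using h2
  refine ⟨B, s, by rw [hBb]; exact hbX, ?_⟩
  apply rv_injective
  rw [← hc]
  ext v
  simp only [Finset.sum_apply, Pi.smul_apply, smul_eq_mul, rv, Int.cast_sum, Int.cast_mul]
  exact Finset.sum_congr rfl fun e he => by rw [hs e he]

/-- The lattice spanned by a subfamily is saturated. -/
theorem saturated (g : E → V → ℤ) (hU : Unimod g) (X : Set E) (w : V → ℤ)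
    (hw : rv w ∈ Submodule.span ℝ ((fun e => rv (g e)) '' X)) :
    w ∈ Submodule.span ℤ (g '' X) := by
  obtain ⟨B, s, hBX, rfl⟩ := exists_int_comb g hU X w hw
  exact Submodule.sum_mem _ fun e he => Submodule.smul_mem _ _
    (Submodule.subset_span ⟨e, hBX he, rfl⟩)

theorem rv_mem_span (g : E → V → ℤ) (X : Set E) (w : V → ℤ)
    (hw : w ∈ Submodule.span ℤ (g '' X)) :
    rv w ∈ Submodule.span ℝ ((fun e => rv (g e)) '' X) := by
  induction hw using Submodule.span_induction with
  | mem x h =>
    obtain ⟨e, he, rfl⟩ := h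
    exact Submodule.subset_span ⟨e, he, rfl⟩
  | zero =>
    have : rv (0 : V → ℤ) = 0 := by ext; simp [rv]
    rw [this]; exact Submodule.zero_mem _
  | add x y _ _ hx hy =>
    have : rv (x + y) = rv x + rv y := by ext; simp [rv]
    rw [this]; exact Submodule.add_mem _ hx hy
  | smul c x _ hx =>
    have : rv (c • x) = (c : ℝ) • rv x := by ext; simp [rv]
    rw [this]; exact Submodule.smul_mem _ _ hx

instance quot_torsionFree (g : E → V → ℤ) [hU : Fact (Unimod g)] (X : Set E) :
    Module.IsTorsionFree ℤ ((V → ℤ) ⧸ Submodule.span ℤ (g '' X)) := by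
  rw [Module.isTorsionFree_iff_smul_eq_zero]
  intro c q hq
  obtain ⟨w, rfl⟩ := Submodule.Quotient.mk_surjective _ q
  by_cases hc : c = 0
  · exact Or.inl hc
  right
  rw [← Submodule.Quotient.mk_smul, Submodule.Quotient.mk_eq_zero] at hq
  rw [Submodule.Quotient.mk_eq_zero]
  apply saturated g hU.out X
  have h1 := rv_mem_span g X _ hq
  have h2 : rv (c • w) = (c : ℝ) • rv w := by ext; simp [rv]
  rw [h2] at h1
  have hcR : (c : ℝ) ≠ 0 := by exact_mod_cast hc
  have h3 := Submodule.smul_mem _ ((c : ℝ)⁻¹) h1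
  rwa [smul_smul, inv_mul_cancel₀ hcR, one_smul] at h3

/-- A retraction onto the lattice spanned by a subfamily. -/
theorem exists_retraction (g : E → V → ℤ) (hU : Unimod g) (X : Set E) :
    ∃ p : (V → ℤ) →ₗ[ℤ] (V → ℤ), (∀ w, p w ∈ Submodule.span ℤ (g '' X)) ∧
      ∀ w ∈ Submodule.span ℤ (g '' X), p w = w := by
  have : Fact (Unimod g) := ⟨hU⟩
  set Λ := Submodule.span ℤ (g '' X) with hΛ
  have : Module.Free ℤ ((V → ℤ) ⧸ Λ) := Module.free_of_finite_type_torsion_free'
  obtain ⟨s, hs⟩ := Module.projective_lifting_property Λ.mkQ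
    (LinearMap.id : ((V → ℤ) ⧸ Λ) →ₗ[ℤ] ((V → ℤ) ⧸ Λ)) (Submodule.mkQ_surjective Λ)
  refine ⟨LinearMap.id - s ∘ₗ Λ.mkQ, ?_, ?_⟩
  · intro w
    rw [← Submodule.Quotient.mk_eq_zero Λ]
    have h1 := LinearMap.congr_fun hs (Submodule.Quotient.mk w)
    simp only [LinearMap.comp_apply, Submodule.mkQ_apply, LinearMap.id_apply] at h1
    simp only [LinearMap.sub_apply, LinearMap.id_apply, LinearMap.comp_apply,
      Submodule.mkQ_apply, Submodule.Quotient.mk_sub]
    rw [h1, sub_self]
  · intro w hw
    simp only [LinearMap.sub_apply, LinearMap.id_apply, LinearMap.comp_apply,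
      Submodule.mkQ_apply]
    rw [(Submodule.Quotient.mk_eq_zero Λ).mpr hw, map_zero, sub_zero]

/-- The value of a potential on an element. -/
noncomputable def val (g : E → V → ℤ) (φ : V → ℝ) (e : E) : ℝ := ∑ v, φ v * (g e v : ℝ)

theorem integral_case (g : E → V → ℤ) (hU : Unimod g) (φ : V → ℝ)
    (h : ∀ e, ∃ z : ℤ, val g φ e = z) :
    ∃ ψ : V → ℤ, ∀ e, ((∑ v, ψ v * g e v : ℤ) : ℝ) = val g φ e := by
  classical
  obtain ⟨p, hp1, hp2⟩ := exists_retraction g hU Set.univ
  have hint : ∀ w ∈ Submodule.span ℤ (g '' Set.univ), ∃ z : ℤ, ∑ v, φ v * (w v : ℝ) = z := by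
    intro w hw
    induction hw using Submodule.span_induction with
    | mem x hx =>
      obtain ⟨e, -, rfl⟩ := hx
      exact h e
    | zero => exact ⟨0, by simp⟩
    | add x y _ _ hx hy =>
      obtain ⟨a, ha⟩ := hx
      obtain ⟨b, hb⟩ := hy
      refine ⟨a + b, ?_⟩
      push_cast
      rw [← ha, ← hb, ← Finset.sum_add_distrib]
      exact Finset.sum_congr rfl fun v _ => by simp only [Pi.add_apply]; push_cast; ring
    | smul c x _ hx =>
      obtain ⟨a, ha⟩ := hx
      refine ⟨c * a, ?_⟩
      push_cast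
      rw [← ha, Finset.mul_sum]
      exact Finset.sum_congr rfl fun v _ => by
        simp only [Pi.smul_apply, smul_eq_mul]; push_cast; ring
  choose ψ hψ using fun v : V => hint _ (hp1 (Pi.single v 1))
  refine ⟨ψ, fun e => ?_⟩
  have h1 : g e = ∑ v, g e v • p (Pi.single v (1:ℤ) : V → ℤ) := by
    have h0 : g e = ∑ v, g e v • (Pi.single v (1:ℤ) : V → ℤ) := by
      ext w
      simp [Finset.sum_apply, Pi.single_apply]
    have h2 : p (g e) = g e := hp2 _ (Submodule.subset_span ⟨e, Set.mem_univ _, rfl⟩)
    conv_lhs => rw [← h2, h0, map_sum]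
    exact Finset.sum_congr rfl fun v _ => by rw [map_smul]
  unfold val
  have h2 : ∀ u, (g e u : ℝ) = ∑ v, (g e v : ℝ) * ((p (Pi.single v (1:ℤ) : V → ℤ) u : ℤ) : ℝ) := by
    intro u
    have := congrFun h1 u
    simp only [Finset.sum_apply, Pi.smul_apply, smul_eq_mul] at this
    have h3 := congrArg (Int.cast : ℤ → ℝ) this
    push_cast at h3
    exact h3
  push_cast
  have h4 : ∑ u, φ u * (g e u : ℝ)
      = ∑ v, (g e v : ℝ) * ∑ u, φ u * ((p (Pi.single v (1:ℤ) : V → ℤ) u : ℤ) : ℝ) := by
    calc ∑ u, φ u * (g e u : ℝ)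
        = ∑ u, ∑ v, (g e v : ℝ) * (φ u * ((p (Pi.single v (1:ℤ) : V → ℤ) u : ℤ) : ℝ)) := by
          refine Finset.sum_congr rfl fun u _ => ?_
          rw [h2 u, Finset.mul_sum]
          exact Finset.sum_congr rfl fun v _ => by ring
      _ = _ := by
          rw [Finset.sum_comm]
          exact Finset.sum_congr rfl fun v _ => by rw [Finset.mul_sum]
  rw [h4]
  refine Finset.sum_congr rfl fun v _ => ?_
  rw [hψ v, mul_comm]

open Classical in
/-- **Rounding of potentials** for a unimodular configuration. -/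
theorem round_pot (g : E → V → ℤ) (hU : Unimod g) (L U : E → ℤ) :
    ∀ (N : ℕ) (φ : V → ℝ), (∀ e, (L e : ℝ) ≤ val g φ e) → (∀ e, val g φ e ≤ U e) →
      (univ.filter (fun e => ¬ ∃ z : ℤ, val g φ e = z)).card ≤ N →
      ∃ ψ : V → ℤ, ∀ e, L e ≤ ∑ v, ψ v * g e v ∧ ∑ v, ψ v * g e v ≤ U e := by
  intro N
  induction N with
  | zero =>
    intro φ hL hUp hN
    have hall : ∀ e, ∃ z : ℤ, val g φ e = z := by
      intro e
      by_contra hcon
      have : e ∈ univ.filter (fun e => ¬ ∃ z : ℤ, val g φ e = z) :=
        Finset.mem_filter.mpr ⟨Finset.mem_univ _, hcon⟩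
      have := Finset.card_pos.mpr ⟨e, this⟩
      omega
    obtain ⟨ψ, hψ⟩ := integral_case g hU φ hall
    refine ⟨ψ, fun e => ⟨?_, ?_⟩⟩
    · have := hL e
      rw [← hψ e] at this
      exact_mod_cast this
    · have := hUp e
      rw [← hψ e] at this
      exact_mod_cast this
  | succ N ih =>
    intro φ hL hUp hN
    by_cases hall : ∀ e, ∃ z : ℤ, val g φ e = z
    · obtain ⟨ψ, hψ⟩ := integral_case g hU φ hall
      refine ⟨ψ, fun e => ⟨?_, ?_⟩⟩
      · have := hL e
        rw [← hψ e] at this
        exact_mod_cast this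
      · have := hUp e
        rw [← hψ e] at this
        exact_mod_cast this
    push Not at hall
    obtain ⟨e₁, he₁⟩ := hall
    set I0 : Set E := {e | ∃ z : ℤ, val g φ e = z} with hI0
    have hnot : rv (g e₁) ∉ Submodule.span ℝ ((fun e => rv (g e)) '' I0) := by
      intro hmem
      obtain ⟨B, s, hBI, hB⟩ := exists_int_comb g hU I0 (g e₁) hmem
      have hz : ∀ e, ∃ z : ℤ, e ∈ B → val g φ e = z := by
        intro e
        by_cases he : e ∈ B
        · obtain ⟨z, hz⟩ := hBI he
          exact ⟨z, fun _ => hz⟩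
        · exact ⟨0, fun h => absurd h he⟩
      choose z hz using hz
      apply he₁ (∑ e ∈ B, s e * z e)
      unfold val
      have h1 : ∀ v, (g e₁ v : ℝ) = ∑ e ∈ B, (s e : ℝ) * (g e v : ℝ) := by
        intro v
        have := congrArg (fun w : V → ℤ => ((w v : ℤ) : ℝ)) hB
        simpa [Finset.sum_apply] using this
      calc ∑ v, φ v * (g e₁ v : ℝ)
          = ∑ v, ∑ e ∈ B, (s e : ℝ) * (φ v * (g e v : ℝ)) := by
            refine Finset.sum_congr rfl fun v _ => ?_
            rw [h1 v, Finset.mul_sum]
            exact Finset.sum_congr rfl fun e _ => by ring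
        _ = ∑ e ∈ B, (s e : ℝ) * val g φ e := by
            rw [Finset.sum_comm]
            refine Finset.sum_congr rfl fun e _ => ?_
            rw [← Finset.mul_sum]; rfl
        _ = _ := by
            push_cast
            exact Finset.sum_congr rfl fun e he => by rw [hz e he]
    obtain ⟨f, hf1, hf0⟩ := Submodule.exists_le_ker_of_notMem hnot
    -- the direction
    set δ : V → ℝ := fun v => f (Pi.single v 1) with hδ
    have hfx : ∀ e, f (rv (g e)) = val g δ e := by
      intro e
      have hw : rv (g e) = ∑ v, (g e v : ℝ) • (Pi.single v (1:ℝ) : V → ℝ) := by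
        ext k
        simp [rv, Finset.sum_apply, Pi.single_apply]
      rw [hw, map_sum]
      unfold val
      exact Finset.sum_congr rfl fun v _ => by rw [map_smul, smul_eq_mul, mul_comm]
    have hδ0 : ∀ e ∈ I0, val g δ e = 0 := by
      intro e he
      rw [← hfx]
      exact hf0 (Submodule.subset_span ⟨e, he, rfl⟩)
    have hδ1 : val g δ e₁ ≠ 0 := by rw [← hfx]; exact hf1
    -- the time at which the coordinate `e` becomes integral
    let T : E → ℝ := fun e =>
      if 0 < val g δ e then ((⌈val g φ e⌉ : ℝ) - val g φ e) / val g δ e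
      else (val g φ e - (⌊val g φ e⌋ : ℝ)) / (-val g δ e)
    let J : Finset E := univ.filter (fun e => e ∉ I0 ∧ val g δ e ≠ 0)
    have hJ : J.Nonempty := ⟨e₁, by
      simp only [J, Finset.mem_filter, Finset.mem_univ, true_and]
      exact ⟨fun h => by obtain ⟨z, hz⟩ := h; exact he₁ z hz, hδ1⟩⟩
    obtain ⟨e₂, he₂J, hmin⟩ := Finset.exists_min_image J T hJ
    have hT0 : ∀ e ∈ J, 0 ≤ T e := by
      intro e he
      simp only [T]
      split_ifs with h
      · exact div_nonneg (by linarith [Int.le_ceil (val g φ e)]) h.le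
      · exact div_nonneg (by linarith [Int.floor_le (val g φ e)]) (by linarith [not_lt.mp h])
    set t := T e₂ with ht
    have ht0 : 0 ≤ t := hT0 e₂ he₂J
    set φ' : V → ℝ := fun v => φ v + t * δ v with hφ'
    have hval : ∀ e, val g φ' e = val g φ e + t * val g δ e := by
      intro e
      unfold val
      rw [Finset.mul_sum, ← Finset.sum_add_distrib]
      exact Finset.sum_congr rfl fun v _ => by simp only [hφ']; ring
    have hrange : ∀ e, (⌊val g φ e⌋ : ℝ) ≤ val g φ' e ∧ val g φ' e ≤ (⌈val g φ e⌉ : ℝ) := by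
      intro e
      rw [hval]
      by_cases heJ : e ∈ J
      · have h1 := hmin e heJ
        have h2 : val g δ e ≠ 0 := by
          simp only [J, Finset.mem_filter] at heJ
          exact heJ.2.2
        simp only [T] at h1
        split_ifs at h1 with hpos
        · have h3 : t * val g δ e ≤ (⌈val g φ e⌉ : ℝ) - val g φ e := by
            calc t * val g δ e ≤ ((⌈val g φ e⌉ : ℝ) - val g φ e) / val g δ e * val g δ e :=
                  mul_le_mul_of_nonneg_right h1 hpos.le
              _ = _ := by field_simp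
          constructor
          · have := mul_nonneg ht0 hpos.le
            linarith [Int.floor_le (val g φ e)]
          · linarith
        · have hneg : 0 < -val g δ e := by
            rcases lt_or_gt_of_ne h2 with h | h
            · linarith
            · exact absurd h hpos
          have h3 : t * (-val g δ e) ≤ val g φ e - (⌊val g φ e⌋ : ℝ) := by
            calc t * (-val g δ e)
                ≤ (val g φ e - (⌊val g φ e⌋ : ℝ)) / (-val g δ e) * (-val g δ e) :=
                  mul_le_mul_of_nonneg_right h1 hneg.le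
              _ = _ := by field_simp
          constructor
          · linarith
          · have := mul_nonneg ht0 hneg.le
            linarith [Int.le_ceil (val g φ e)]
      · have h1 : val g δ e = 0 := by
          by_cases he : e ∈ I0
          · exact hδ0 e he
          · by_contra hne
            exact heJ (by simp only [J, Finset.mem_filter, Finset.mem_univ, true_and]; exact ⟨he, hne⟩)
        rw [h1, mul_zero, add_zero]
        exact ⟨Int.floor_le _, Int.le_ceil _⟩
    have he₂ : ∃ z : ℤ, val g φ' e₂ = z := by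
      have h2 : val g δ e₂ ≠ 0 := by
        simp only [J, Finset.mem_filter] at he₂J
        exact he₂J.2.2
      by_cases hpos : 0 < val g δ e₂
      · refine ⟨⌈val g φ e₂⌉, ?_⟩
        rw [hval]
        have : t = ((⌈val g φ e₂⌉ : ℝ) - val g φ e₂) / val g δ e₂ := by
          simp only [ht, T, if_pos hpos]
        rw [this]
        field_simp
        ring
      · refine ⟨⌊val g φ e₂⌋, ?_⟩
        rw [hval]
        have : t = (val g φ e₂ - (⌊val g φ e₂⌋ : ℝ)) / (-val g δ e₂) := by
          simp only [ht, T, if_neg hpos]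
        rw [this]
        field_simp
        ring
    apply ih φ'
    · intro e
      have h1 : (L e : ℝ) ≤ (⌊val g φ e⌋ : ℝ) := by
        exact_mod_cast Int.le_floor.mpr (hL e)
      linarith [(hrange e).1]
    · intro e
      have h1 : (⌈val g φ e⌉ : ℝ) ≤ (U e : ℝ) := by
        exact_mod_cast Int.ceil_le.mpr (hUp e)
      linarith [(hrange e).2]
    · have hsub : univ.filter (fun e => ¬ ∃ z : ℤ, val g φ' e = z) ⊆
          (univ.filter (fun e => ¬ ∃ z : ℤ, val g φ e = z)).erase e₂ := by
        intro e he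
        simp only [Finset.mem_filter, Finset.mem_univ, true_and, Finset.mem_erase] at he ⊢
        refine ⟨fun h => he (h ▸ he₂), fun h => ?_⟩
        apply he
        obtain ⟨z, hz⟩ := h
        refine ⟨z, ?_⟩
        rw [hval, hδ0 e ⟨z, hz⟩, mul_zero, add_zero, hz]
      have h7 := Finset.card_le_card hsub
      have h8 : e₂ ∈ univ.filter (fun e => ¬ ∃ z : ℤ, val g φ e = z) := by
        simp only [J, Finset.mem_filter, Finset.mem_univ, true_and] at he₂J ⊢
        exact he₂J.1
      rw [Finset.card_erase_of_mem h8] at h7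
      omega

end Pool.Agent.H185R2.Reg
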