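import Mathlib
import Pool.Agent.H185R2.Reg.RoundP
import Pool.Agent.H185R2.Reg.Cov

set_option autoImplicit false

/-!
The characteristic polynomial of a unimodular configuration at `k` counts nowhere-zero
potentials modulo `k`.
-/

namespace Pool.Agent.H185R2.Reg

open Finset Matrix
open Pool.Agent.Helper879.ECD (sp)
open Pool.Agent.H239R2.Cover (rv Unimod rv_injective unimod_of_minors)

set_option linter.unusedSectionVars false

variable {V E : Type} [Fintype V] [DecidableEq V] [Fintype E] [DecidableEq E]

/-- An independent part of `X` generating the lattice of `X`. -/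
theorem exists_lattice_basis (g : E → V → ℤ) (hU : Unimod g) (X : Set E) :
    ∃ B : Finset E, (B : Set E) ⊆ X ∧ LinearIndepOn ℝ (fun e => rv (g e)) (B : Set E) ∧
      ∀ e ∈ X, g e ∈ Submodule.span ℤ (g '' (B : Set E)) := by
  classical
  obtain ⟨b, hbX, -, hspan, hind⟩ := exists_linearIndepOn_extension
    (K := ℝ) (v := fun e => rv (g e)) (s := (∅ : Set E)) (t := X)
    (linearIndepOn_empty ℝ _) (Set.empty_subset X)
  set B : Finset E := b.toFinite.toFinset with hB
  have hBb : (B : Set E) = b := Set.Finite.coe_toFinset _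
  refine ⟨B, by rw [hBb]; exact hbX, by rw [hBb]; exact hind, fun e he => ?_⟩
  rw [hBb]
  exact saturated g hU b (g e) (hspan ⟨e, he, rfl⟩)

theorem span_eq (g : E → V → ℤ) (X : Set E) (B : Set E) (hB : B ⊆ X)
    (h : ∀ e ∈ X, g e ∈ Submodule.span ℤ (g '' B)) :
    Submodule.span ℤ (g '' X) = Submodule.span ℤ (g '' B) := by
  apply le_antisymm
  · rw [Submodule.span_le]
    rintro _ ⟨e, he, rfl⟩
    exact h e he
  · exact Submodule.span_mono (Set.image_mono hB)

theorem indep_Z (g : E → V → ℤ) (B : Set E) (h : LinearIndepOn ℝ (fun e => rv (g e)) B) :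
    LinearIndepOn ℤ g B := by
  have h1 : LinearIndepOn ℤ (fun e => rv (g e)) B := by
    have := h.restrict_scalars (R := ℤ) (by
      intro a b hab
      have : (a : ℝ) = b := by simpa using hab
      exact_mod_cast this)
    exact this
  let F : (V → ℤ) →ₗ[ℤ] (V → ℝ) :=
    { toFun := rv
      map_add' := by intro a b; ext v; simp [rv]
      map_smul' := by intro a b; ext v; simp [rv] }
  exact LinearIndependent.of_comp F h1

theorem indep_Q (g : E → V → ℤ) (B : Set E) (h : LinearIndepOn ℤ g B) :
    LinearIndepOn ℚ (gq g) B := by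
  unfold LinearIndepOn at h ⊢
  rw [← LinearIndependent.iff_fractionRing ℤ ℚ]
  exact h.map' ((Algebra.linearMap ℤ ℚ).compLeft V) (by
      rw [LinearMap.ker_eq_bot]
      intro u w huw
      ext e
      have := congrFun huw e
      simpa using this)

theorem finrank_Z (g : E → V → ℤ) (B : Finset E) (h : LinearIndepOn ℤ g (B : Set E)) :
    Module.finrank ℤ (Submodule.span ℤ (g '' (B : Set E))) = B.card := by
  have h1 := finrank_span_eq_card (R := ℤ) (b := fun e : (B : Set E) => g e) h
  have h2 : Set.range (fun e : (B : Set E) => g e) = g '' (B : Set E) := by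
    rw [Set.image_eq_range]
  rw [h2] at h1
  rw [h1]
  simp

theorem finrank_Q (g : E → V → ℤ) (X : Finset E) (B : Finset E) (hBX : B ⊆ X)
    (h : LinearIndepOn ℤ g (B : Set E))
    (hs : ∀ e ∈ X, g e ∈ Submodule.span ℤ (g '' (B : Set E))) :
    Module.finrank ℚ (sp ℚ (gq g) X) = B.card := by
  have h1 := finrank_span_eq_card (R := ℚ) (b := fun e : (B : Set E) => gq g e)
    (indep_Q g _ h)
  have h2 : Set.range (fun e : (B : Set E) => gq g e) = gq g '' (B : Set E) := by
    rw [Set.image_eq_range]
  rw [h2] at h1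
  have h3 : sp ℚ (gq g) X = Submodule.span ℚ (gq g '' (B : Set E)) := by
    unfold sp
    apply le_antisymm
    · rw [Submodule.span_le]
      rintro _ ⟨e, he, rfl⟩
      have h4 := hs e he
      have h5 : ∀ w ∈ Submodule.span ℤ (g '' (B : Set E)),
          (fun v => (w v : ℚ)) ∈ Submodule.span ℚ (gq g '' (B : Set E)) := by
        intro w hw
        induction hw using Submodule.span_induction with
        | mem x hx =>
          obtain ⟨e, he, rfl⟩ := hx
          exact Submodule.subset_span ⟨e, he, rfl⟩
        | zero =>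
          have : (fun v : V => (((0 : V → ℤ) v : ℤ) : ℚ)) = 0 := by ext; simp
          rw [this]; exact Submodule.zero_mem _
        | add x y _ _ hx hy =>
          have : (fun v : V => (((x + y : V → ℤ) v : ℤ) : ℚ))
            = (fun v => (x v : ℚ)) + (fun v => (y v : ℚ)) := by ext; simp
          rw [this]; exact Submodule.add_mem _ hx hy
        | smul c x _ hx =>
          have : (fun v : V => (((c • x : V → ℤ) v : ℤ) : ℚ)) = (c : ℚ) • (fun v => (x v : ℚ)) := by
            ext; simp
          rw [this]; exact Submodule.smul_mem _ _ hx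
      exact h5 _ h4
    · exact Submodule.span_mono (Set.image_mono (by exact_mod_cast hBX))
  rw [h3, h1]
  simp

/-- The annihilator of a subfamily modulo `k`. -/
def Ann (g : E → V → ℤ) (k : ℕ) (X : Finset E) : Set (V → ZMod k) :=
  {y | ∀ e ∈ X, ∑ v, y v * (g e v : ZMod k) = 0}

theorem card_ann (g : E → V → ℤ) (hU : Unimod g) (k : ℕ) [NeZero k] (X : Finset E) :
    Nat.card (Ann g k X) = k ^ (Fintype.card V - Module.finrank ℚ (sp ℚ (gq g) X)) := by
  classical
  obtain ⟨B, hBX, hind, hs⟩ := exists_lattice_basis g hU (X : Set E)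
  have hZ := indep_Z g _ hind
  rw [finrank_Q g X B (by exact_mod_cast hBX) hZ hs]
  set Λ := Submodule.span ℤ (g '' (X : Set E)) with hΛ
  have : Fact (Unimod g) := ⟨hU⟩
  have hfree : Module.Free ℤ ((V → ℤ) ⧸ Λ) := Module.free_of_finite_type_torsion_free'
  have hrank : Module.finrank ℤ ((V → ℤ) ⧸ Λ) = Fintype.card V - B.card := by
    have h1 := Submodule.finrank_quotient_add_finrank Λ
    rw [Module.finrank_fintype_fun_eq_card] at h1
    have h2 : Module.finrank ℤ Λ = B.card := by
      rw [hΛ, span_eq g _ _ hBX hs, finrank_Z g B hZ]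
    omega
  let b := Module.finBasis ℤ ((V → ℤ) ⧸ Λ)
  -- homomorphisms from the quotient
  have e1 : (((V → ℤ) ⧸ Λ) →ₗ[ℤ] ZMod k) ≃ (Fin (Module.finrank ℤ ((V → ℤ) ⧸ Λ)) → ZMod k) :=
    (b.constr ℤ (M' := ZMod k)).symm.toEquiv
  let lin : (V → ZMod k) → ((V → ℤ) →ₗ[ℤ] ZMod k) := fun y =>
    { toFun := fun w => ∑ v, y v * (w v : ZMod k)
      map_add' := by
        intro a b
        rw [← Finset.sum_add_distrib]
        exact Finset.sum_congr rfl fun v _ => by simp only [Pi.add_apply]; push_cast; ring
      map_smul' := by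
        intro c a
        rw [RingHom.id_apply, Finset.smul_sum]
        refine Finset.sum_congr rfl fun v _ => ?_
        have h0 : (c • a) v = c * a v := rfl
        rw [h0, Int.cast_mul, zsmul_eq_mul]
        ring }
  have hlin : ∀ y w, lin y w = ∑ v, y v * (w v : ZMod k) := fun _ _ => rfl
  let e2 : Ann g k X ≃ (((V → ℤ) ⧸ Λ) →ₗ[ℤ] ZMod k) :=
    { toFun := fun y => Λ.liftQ (lin y.1) (by
        rw [hΛ, Submodule.span_le]
        rintro _ ⟨e, he, rfl⟩
        exact y.2 e he)
      invFun := fun f => ⟨fun v => f (Submodule.Quotient.mk (Pi.single v 1)), by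
        intro e he
        have h1 : g e = ∑ v, g e v • (Pi.single v (1:ℤ) : V → ℤ) := by
          ext w
          simp [Finset.sum_apply, Pi.single_apply]
        have h2 : f (Submodule.Quotient.mk (g e)) = 0 := by
          have : (Submodule.Quotient.mk (g e) : (V → ℤ) ⧸ Λ) = 0 := by
            rw [Submodule.Quotient.mk_eq_zero]
            exact Submodule.subset_span ⟨e, he, rfl⟩
          rw [this, map_zero]
        rw [← h2]
        conv_rhs => rw [h1]
        rw [← Submodule.mkQ_apply, map_sum, map_sum]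
        refine Finset.sum_congr rfl fun v _ => ?_
        rw [map_smul, map_smul, zsmul_eq_mul, mul_comm, Submodule.mkQ_apply]⟩
      left_inv := by
        intro y
        apply Subtype.ext
        funext v
        change (Λ.liftQ (lin y.1) _) (Submodule.Quotient.mk (Pi.single v 1)) = y.1 v
        rw [Submodule.liftQ_apply, hlin, Finset.sum_eq_single v]
        · simp
        · intro u _ hu
          rw [Pi.single_eq_of_ne hu]; simp
        · intro h; exact absurd (Finset.mem_univ _) h
      right_inv := by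
        intro f
        apply Submodule.linearMap_qext
        apply LinearMap.pi_ext'
        intro v
        apply LinearMap.ext_ring
        simp only [LinearMap.comp_apply, Submodule.mkQ_apply, Submodule.liftQ_apply,
          LinearMap.coe_single, hlin]
        rw [Finset.sum_eq_single v]
        · simp
        · intro u _ hu
          rw [Pi.single_eq_of_ne hu]; simp
        · intro h; exact absurd (Finset.mem_univ _) h }
  rw [Nat.card_congr (e2.trans e1), Nat.card_eq_fintype_card, Fintype.card_fun, ZMod.card,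
    Fintype.card_fin, hrank]

open Classical in
/-- Inclusion-exclusion: the number of nowhere-zero potentials modulo `k`. -/
theorem count_nz (g : E → V → ℤ) (hU : Unimod g) (k : ℕ) [NeZero k] :
    ((univ.filter (fun y : V → ZMod k => ∀ e, ∑ v, y v * (g e v : ZMod k) ≠ 0)).card : ℤ)
      = ∑ X : Finset E, (-1 : ℤ) ^ X.card *
        (k : ℤ) ^ (Fintype.card V - Module.finrank ℚ (sp ℚ (gq g) X)) := by
  have h1 : ∀ y : V → ZMod k,
      (if ∀ e, ∑ v, y v * (g e v : ZMod k) ≠ 0 then (1:ℤ) else 0)
        = ∑ X : Finset E, (-1 : ℤ) ^ X.card * (if y ∈ Ann g k X then 1 else 0) := by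
    intro y
    have h2 : (if ∀ e, ∑ v, y v * (g e v : ZMod k) ≠ 0 then (1:ℤ) else 0)
        = ∏ e, ((if ∑ v, y v * (g e v : ZMod k) = 0 then (-1:ℤ) else 0) + 1) := by
      split_ifs with h
      · symm
        apply Finset.prod_eq_one
        intro e _
        rw [if_neg (h e), zero_add]
      · push Not at h
        obtain ⟨e, he⟩ := h
        symm
        apply Finset.prod_eq_zero (Finset.mem_univ e)
        rw [if_pos he]; norm_num
    rw [h2, Finset.prod_add, Finset.powerset_univ]
    refine Finset.sum_congr rfl fun X _ => ?_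
    rw [Finset.prod_const_one, mul_one]
    by_cases hX : y ∈ Ann g k X
    · rw [if_pos hX, mul_one, Finset.prod_congr rfl (fun e he => if_pos (hX e he)),
        Finset.prod_const]
    · rw [if_neg hX, mul_zero]
      have : ∃ e ∈ X, ∑ v, y v * (g e v : ZMod k) ≠ 0 := by
        by_contra hcon
        push Not at hcon
        exact hX hcon
      obtain ⟨e, heX, he⟩ := this
      apply Finset.prod_eq_zero heX
      rw [if_neg he]
  rw [Finset.card_filter]
  push_cast
  rw [Finset.sum_congr rfl (fun y _ => h1 y), Finset.sum_comm]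
  refine Finset.sum_congr rfl fun X _ => ?_
  rw [← Finset.mul_sum]
  congr 1
  have h3 := card_ann g hU k X
  have h4 : Nat.card (Ann g k X) = (univ.filter (fun y => y ∈ Ann g k X)).card := by
    rw [Nat.card_eq_fintype_card, Fintype.card_subtype]
  rw [h4] at h3
  have h5 : (∑ y : V → ZMod k, (if y ∈ Ann g k X then (1:ℤ) else 0))
      = ((univ.filter (fun y => y ∈ Ann g k X)).card : ℤ) := by
    rw [Finset.card_filter]; push_cast; rfl
  rw [h5, h3]
  push_cast
  rfl

/-- **Main lemma.** If `2 |A| ≤ k rk(A)` for all `A`, there is an integral potential that takes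
no value divisible by `k`. -/
theorem exists_nz (g : E → V → ℤ) (hU : Unimod g) (k : ℕ) (hk : 2 ≤ k)
    (h : ∀ A : Finset E, 2 * A.card ≤ k * Module.finrank ℚ (sp ℚ (gq g) A)) :
    ∃ ψ : V → ℤ, ∀ e, ¬ (k : ℤ) ∣ ∑ v, ψ v * g e v := by
  classical
  obtain ⟨φ, y, hφ⟩ := dual_covering g k (k - 2) (by omega) (fun A => by
    have h1 := h A
    have h2 : k * A.card = (k - 2) * A.card + 2 * A.card := by
      rw [← add_mul]; congr 1; omega
    omega) (fun _ => 1 / 2)
  have hkR : (0:ℝ) < k := by
    have : 0 < k := by omega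
    exact_mod_cast this
  have hb : ((k - 2 : ℕ) : ℝ) / (2 * k) = 1 / 2 - 1 / k := by
    rw [Nat.cast_sub hk]
    push_cast
    field_simp
  have hval : ∀ e, val g (fun v => k * φ v) e = k * ∑ v, φ v * (g e v : ℝ) := by
    intro e
    unfold val
    rw [Finset.mul_sum]
    exact Finset.sum_congr rfl fun v _ => by ring
  obtain ⟨ψ, hψ⟩ := round_pot g hU (fun e => 1 - k * y e) (fun e => k - 1 - k * y e) _
    (fun v => k * φ v) (fun e => by
      have h1 := hφ e
      rw [hb] at h1
      have h2 := (abs_le.mp h1).2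
      rw [hval]
      push_cast
      have h3 : 1 / (k:ℝ) - y e ≤ ∑ v, φ v * (g e v : ℝ) := by linarith
      have h4 := mul_le_mul_of_nonneg_left h3 hkR.le
      have h5 : (k:ℝ) * (1 / (k:ℝ) - y e) = 1 - k * y e := by field_simp
      linarith) (fun e => by
      have h1 := hφ e
      rw [hb] at h1
      have h2 := (abs_le.mp h1).1
      rw [hval]
      push_cast
      have h3 : ∑ v, φ v * (g e v : ℝ) ≤ 1 - 1 / (k:ℝ) - y e := by linarith
      have h4 := mul_le_mul_of_nonneg_left h3 hkR.le
      have h5 : (k:ℝ) * (1 - 1 / (k:ℝ) - y e) = k - 1 - k * y e := by field_simp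
      linarith) le_rfl
  refine ⟨ψ, fun e hdvd => ?_⟩
  obtain ⟨h1, h2⟩ := hψ e
  obtain ⟨c, hc⟩ := hdvd
  rw [hc] at h1 h2
  have h3 : (k : ℤ) * (c + y e) ≥ 1 := by nlinarith
  have h4 : (k : ℤ) * (c + y e) ≤ k - 1 := by nlinarith
  have hkZ : (0:ℤ) < k := by
    have : 0 < k := by omega
    exact_mod_cast this
  have h5 : 0 < c + y e := by
    by_contra hcon
    push Not at hcon
    nlinarith
  nlinarith

/-- The characteristic polynomial at `k` does not vanish. -/
theorem char_ne_zero (g : E → V → ℤ) (hU : Unimod g) (k : ℕ) (hk : 2 ≤ k)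
    (h : ∀ A : Finset E, 2 * A.card ≤ k * Module.finrank ℚ (sp ℚ (gq g) A)) :
    ∑ X : Finset E, (-1 : ℤ) ^ X.card *
      (k : ℤ) ^ (Module.finrank ℚ (sp ℚ (gq g) (univ : Finset E))
        - Module.finrank ℚ (sp ℚ (gq g) X)) ≠ 0 := by
  classical
  have : NeZero k := ⟨by omega⟩
  obtain ⟨ψ, hψ⟩ := exists_nz g hU k hk h
  have h1 := count_nz g hU k
  have hpos : 0 < (univ.filter (fun y : V → ZMod k =>
      ∀ e, ∑ v, y v * (g e v : ZMod k) ≠ 0)).card := by
    apply Finset.card_pos.mpr
    refine ⟨fun v => (ψ v : ZMod k), ?_⟩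
    rw [Finset.mem_filter]
    refine ⟨Finset.mem_univ _, fun e he => hψ e ?_⟩
    rw [← ZMod.intCast_zmod_eq_zero_iff_dvd]
    push_cast
    exact he
  intro h0
  have hmono : ∀ X : Finset E, Module.finrank ℚ (sp ℚ (gq g) X)
      ≤ Module.finrank ℚ (sp ℚ (gq g) (univ : Finset E)) := by
    intro X
    apply Submodule.finrank_mono
    exact Submodule.span_mono (Set.image_mono (by simp))
  have hle : Module.finrank ℚ (sp ℚ (gq g) (univ : Finset E)) ≤ Fintype.card V := by
    have := Submodule.finrank_le (sp ℚ (gq g) (univ : Finset E))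
    rwa [Module.finrank_fintype_fun_eq_card] at this
  have h2 : ∑ X : Finset E, (-1 : ℤ) ^ X.card *
        (k : ℤ) ^ (Fintype.card V - Module.finrank ℚ (sp ℚ (gq g) X))
      = (k : ℤ) ^ (Fintype.card V - Module.finrank ℚ (sp ℚ (gq g) (univ : Finset E))) *
        ∑ X : Finset E, (-1 : ℤ) ^ X.card *
      (k : ℤ) ^ (Module.finrank ℚ (sp ℚ (gq g) (univ : Finset E))
        - Module.finrank ℚ (sp ℚ (gq g) X)) := by
    rw [Finset.mul_sum]
    refine Finset.sum_congr rfl fun X _ => ?_
    have h3 := hmono X
    have h4 : Fintype.card V - Module.finrank ℚ (sp ℚ (gq g) X)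
        = (Fintype.card V - Module.finrank ℚ (sp ℚ (gq g) (univ : Finset E)))
          + (Module.finrank ℚ (sp ℚ (gq g) (univ : Finset E))
            - Module.finrank ℚ (sp ℚ (gq g) X)) := by omega
    rw [h4, pow_add]
    ring
  rw [h2, h0, mul_zero] at h1
  have : (univ.filter (fun y : V → ZMod k =>
      ∀ e, ∑ v, y v * (g e v : ZMod k) ≠ 0)).card = 0 := by exact_mod_cast h1
  omega

end Pool.Agent.H185R2.Reg
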